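import Pool.Agent.Helper733.Chain

/-!
The constants `c(d,i,j)` comparing the face contents `V_i` and `V_j` of `d`-polytopes are finite
for all `1 ≤ j ≤ i ≤ d`.

Outline of the proof.  It is enough to bound `V_{k+1}(P)` by a constant (depending on `k` only)
times `V_k(P)^((k+1)/k)`.  To each `(k+1)`-face `F` one attaches a point and to each `k`-face `G` a
line of a `(k+2)`-dimensional space of affine functions (a generic complement of the functions
vanishing on `F`), so that every `k`-face of `F` gives a line through the point of `F`.  A weighted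
form of the joints theorem (polynomial method) bounds a sum over the points, and a geometric
inequality for the facets of `F` bounds the volume of `F` by the weights of its facets.
-/

set_option autoImplicit false

namespace Pool.Agent.Results.MP_c4c3e2_gt.FiniteRatios

open Pool.Agent.Helper733

/-- Sanity check: the face contents of a polytope are positive and finite. -/
theorem faceContent_pos_and_finite (d k : ℕ) (hk : 1 ≤ k) (hkd : k ≤ d)
    (P : Set (EuclideanSpace ℝ (Fin d))) (hP : IsPolytope d P) :
    0 < faceContent k P ∧ faceContent k P < ⊤ :=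
  ⟨Chain.faceContent_pos P hP k hk hkd, Chain.faceContent_lt_top P hP k⟩

/-- The bound is even uniform in the dimension `d`. -/
theorem uniform_in_dimension (i j : ℕ) (hj : 1 ≤ j) (hji : j ≤ i) :
    ∃ C : ENNReal, C < ⊤ ∧ ∀ d : ℕ, ratioSup d i j ≤ C :=
  ⟨Chain.chainC j (i - j), Chain.chainC_lt_top _ _, fun d => Chain.ratioSup_le d i j hj hji⟩

/-- `c(d,i,j) < ∞` for all `1 ≤ j ≤ i ≤ d`. -/
theorem result : ∀ d i j : ℕ, 1 ≤ j → j ≤ i → i ≤ d → ratioSup d i j < ⊤ := by
  intro d i j hj hji _
  exact (Chain.ratioSup_le d i j hj hji).trans_lt (Chain.chainC_lt_top _ _)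

end Pool.Agent.Results.MP_c4c3e2_gt.FiniteRatios
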